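import Mathlib

/-!
# Squarefree words with initial non-repetitive complexity at most `2n` (MP_2232d5, Q1)

A squarefree infinite word `y` with `nsc_y(n) ≤ 2n` for every `n ≥ 1` is the ruler sequence up to
a renaming of the letters.
-/

set_option autoImplicit false

namespace Pool.Agent.Results.MP_2232d5_co.Ruler

/-- The Zimin words. -/
def Z : ℕ → List ℕ
  | 0 => []
  | k + 1 => Z k ++ k :: Z k

/-- The ruler sequence, which has every Zimin word as a prefix. -/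
def ruler (p : ℕ) : ℕ := (Z (p + 1)).getD p 0

/-- No factor of `y` is a square `uu` with `u` non-empty. -/
def Squarefree {A : Type*} (y : ℕ → A) : Prop :=
  ¬ ∃ i l : ℕ, 0 < l ∧ ∀ t < l, y (i + t) = y (i + l + t)

/-- The initial non-repetitive complexity: the supremum in `ℕ ∪ {∞}` of all `m` such that the
first `m` factors of length `n` are pairwise distinct. -/
noncomputable def nsc {A : Type*} (y : ℕ → A) (n : ℕ) : ℕ∞ :=
  ⨆ m ∈ {m : ℕ | ∀ i j, i < j → j < m → ¬ ∀ t < n, y (i + t) = y (j + t)}, (m : ℕ∞)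

/-! ### The 2-adic valuation -/

/-- 2-adic valuation -/
noncomputable def nu (n : ℕ) : ℕ := padicValNat 2 n

lemma pow_dvd_iff {n : ℕ} (hn : 0 < n) (t : ℕ) : 2 ^ t ∣ n ↔ t ≤ nu n := by
  unfold nu
  rw [padicValNat_dvd_iff]
  constructor
  · rintro (h | h)
    · omega
    · exact h
  · intro h; exact Or.inr h

lemma nu_eq {m n : ℕ} (hm : 0 < m) (hn : 0 < n) (h : ∀ t, 2 ^ t ∣ m ↔ 2 ^ t ∣ n) :
    nu m = nu n := by
  apply le_antisymm
  · rw [← pow_dvd_iff hn, ← h, pow_dvd_iff hm]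
  · rw [← pow_dvd_iff hm, h, pow_dvd_iff hn]

lemma nu_pow (w : ℕ) : nu (2 ^ w) = w := by
  unfold nu; simp

lemma pow_nu_dvd {n : ℕ} (hn : 0 < n) : 2 ^ nu n ∣ n := (pow_dvd_iff hn _).mpr le_rfl

lemma nu_lt {w n : ℕ} (hn : 0 < n) (h : n < 2 ^ w) : nu n < w := by
  have h1 := Nat.le_of_dvd hn (pow_nu_dvd hn)
  by_contra hc
  rw [not_lt] at hc
  have := Nat.pow_le_pow_right (show 0 < 2 by norm_num) hc
  omega

lemma nu_add {w a b : ℕ} (ha : 2 ^ w ∣ a) (hb : 0 < b) (hb' : b < 2 ^ w) :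
    nu (a + b) = nu b := by
  apply nu_eq (by omega) hb
  intro t
  rcases Nat.lt_or_ge w t with h | h
  · constructor
    · intro h1
      exfalso
      have h2 : 2 ^ w ∣ a + b := (pow_dvd_pow 2 h.le).trans h1
      have h3 : 2 ^ w ∣ b := (Nat.dvd_add_right ha).mp h2
      have := Nat.le_of_dvd hb h3
      omega
    · intro h1
      exfalso
      have h3 : 2 ^ w ∣ b := (pow_dvd_pow 2 h.le).trans h1
      have := Nat.le_of_dvd hb h3
      omega
  · exact Nat.dvd_add_right ((pow_dvd_pow 2 h).trans ha)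

lemma nu_sub {w a b : ℕ} (ha : 2 ^ w ∣ a) (hb : 0 < b) (hb' : b < 2 ^ w) (hab : b < a) :
    nu (a - b) = nu b := by
  apply nu_eq (by omega) hb
  intro t
  rcases Nat.lt_or_ge w t with h | h
  · constructor
    · intro h1
      exfalso
      have h2 : 2 ^ w ∣ a - b := (pow_dvd_pow 2 h.le).trans h1
      have h3 : 2 ^ w ∣ b := (Nat.dvd_sub_iff_right hab.le ha).mp h2
      have := Nat.le_of_dvd hb h3
      omega
    · intro h1
      exfalso
      have h3 : 2 ^ w ∣ b := (pow_dvd_pow 2 h.le).trans h1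
      have := Nat.le_of_dvd hb h3
      omega
  · exact Nat.dvd_sub_iff_right hab.le ((pow_dvd_pow 2 h).trans ha)

/-- `a = 2^g * odd` minus `2^g` -/
lemma nu_sub_pow_gt {g a : ℕ} (ha : nu a = g) (hga : 2 ^ g < a) : g < nu (a - 2 ^ g) := by
  have hpos : 0 < a := lt_of_le_of_lt (Nat.zero_le _) hga
  have hpos2 : 0 < a - 2 ^ g := Nat.sub_pos_of_lt hga
  rw [Nat.lt_iff_add_one_le, ← pow_dvd_iff hpos2]
  obtain ⟨c, hc⟩ : 2 ^ g ∣ a := by rw [← ha]; exact pow_nu_dvd hpos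
  have hodd : ¬ 2 ∣ c := by
    rintro ⟨e, rfl⟩
    have : 2 ^ (g + 1) ∣ a := ⟨e, by rw [hc]; ring⟩
    rw [pow_dvd_iff hpos, ha] at this
    omega
  obtain ⟨e, rfl⟩ : ∃ e, c = 2 * e + 1 := ⟨c / 2, by omega⟩
  refine ⟨e, ?_⟩
  rw [hc, mul_add, mul_one, Nat.add_sub_cancel]
  ring

lemma nu_sub_pow_eq {g a : ℕ} (ha : 2 ^ (g + 1) ∣ a) (hga : 2 ^ g < a) : nu (a - 2 ^ g) = g := by
  have h := nu_sub (w := g + 1) (b := 2 ^ g) ha (by positivity)
    (Nat.pow_lt_pow_right (by norm_num) (by omega)) hga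
  rw [h, nu_pow]

/-- If the letters before position `a - 1` look like `Z_g` then `2^g ∣ a`. -/
lemma dvd_of_before {g a : ℕ} (ha : 0 < a)
    (h : ∀ τ, 1 ≤ τ → τ < 2 ^ g → τ < a ∧ nu (a - τ) = nu τ) : 2 ^ g ∣ a := by
  rw [pow_dvd_iff ha]
  by_contra hc
  rw [not_le] at hc
  have h1 : 2 ^ nu a < 2 ^ g := Nat.pow_lt_pow_right (by norm_num) hc
  obtain ⟨h2, h3⟩ := h (2 ^ nu a) Nat.one_le_two_pow h1
  have h4 := nu_sub_pow_gt rfl h2
  rw [h3, nu_pow] at h4
  omega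

lemma mod_sub {N h τ : ℕ} (hτ : τ ≤ N % h) : (N - τ) % h = N % h - τ := by
  rcases Nat.eq_zero_or_pos h with rfl | hh
  · simp
  have h1 := Nat.div_add_mod N h
  have h2 := Nat.mod_lt N hh
  have h3 : N - τ = h * (N / h) + (N % h - τ) := by omega
  rw [h3, Nat.mul_add_mod, Nat.mod_eq_of_lt (by omega)]

lemma mod_sub' {N h : ℕ} (hh : 0 < h) (hN : h ≤ N) : (N - (N % h + 1)) % h = h - 1 := by
  have h1 := Nat.div_add_mod N h
  have h2 : 1 ≤ N / h := Nat.div_pos hN hh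
  obtain ⟨q, hq⟩ : ∃ q, N / h = q + 1 := ⟨N / h - 1, by omega⟩
  rw [hq] at h1
  have h3 : N - (N % h + 1) = h * q + (h - 1) := by
    rw [mul_add, mul_one] at h1
    omega
  rw [h3, Nat.mul_add_mod, Nat.mod_eq_of_lt (by omega)]

/-! ### The induction step -/

section
variable {A : Type*} {y : ℕ → A} {κ : ℕ}

/-- The first `2^k` letters of `y` form `Z_k d` with a new letter `d`. -/
def Inv (y : ℕ → A) (k : ℕ) : Prop :=
  ∀ p q, p < 2 ^ k → q < 2 ^ k → (y p = y q ↔ nu (p + 1) = nu (q + 1))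

/-- two equal factors of length `n` -/
def Rep (y : ℕ → A) (n : ℕ) : Prop :=
  ∃ i j, i < j ∧ j ≤ 2 * n ∧ ∀ t < n, y (i + t) = y (j + t)

lemma nu_small {k p : ℕ} (h : p + 1 < 2 ^ k) : nu (p + 1) < k := nu_lt (by omega) h

/-- The repeated factors of length `n`, `h ≤ n < P`. -/
lemma win (hsf : Squarefree y) (hI : Inv y (κ + 1)) {n : ℕ} (hn1 : 2 ^ κ ≤ n)
    (hn2 : n < 2 * 2 ^ κ) (hrep : Rep y n) :
    ∃ i s, i < 2 * 2 ^ κ ∧ s ≤ 2 * n - 2 * 2 ^ κ ∧ i + n < 2 * 2 ^ κ + s ∧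
      ∀ t < n, y (i + t) = y (2 * 2 ^ κ + s + t) := by
  obtain ⟨i, j, hij, hj, heq⟩ := hrep
  have hP : 2 ^ (κ + 1) = 2 * 2 ^ κ := by ring
  have hh : 0 < 2 ^ κ := by positivity
  unfold Inv at hI
  rw [hP] at hI
  have hjP : 2 * 2 ^ κ ≤ j := by
    by_contra hc
    rw [not_le] at hc
    rcases Nat.lt_or_ge j (2 ^ κ) with h | h
    · have h1 := heq (2 ^ κ - 1 - j) (by omega)
      rw [show j + (2 ^ κ - 1 - j) = 2 ^ κ - 1 by omega] at h1
      rw [hI _ _ (by omega) (by omega)] at h1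
      rw [show 2 ^ κ - 1 + 1 = 2 ^ κ by omega, nu_pow] at h1
      have := nu_small (k := κ) (p := i + (2 ^ κ - 1 - j)) (by omega)
      omega
    · have h1 := heq (2 * 2 ^ κ - 1 - j) (by omega)
      rw [show j + (2 * 2 ^ κ - 1 - j) = 2 * 2 ^ κ - 1 by omega] at h1
      rw [hI _ _ (by omega) (by omega)] at h1
      rw [show 2 * 2 ^ κ - 1 + 1 = 2 ^ (κ + 1) by omega, nu_pow] at h1
      have := nu_small (k := κ + 1) (p := i + (2 * 2 ^ κ - 1 - j)) (by omega)
      omega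
  have hgap : i + n < j := by
    by_contra hc
    rw [not_lt] at hc
    apply hsf
    refine ⟨i, j - i, by omega, ?_⟩
    intro t ht
    rw [heq t (by omega)]
    congr 1; omega
  refine ⟨i, j - 2 * 2 ^ κ, by omega, by omega, by omega, ?_⟩
  intro t ht
  rw [heq t ht]
  congr 1; omega

/-- The counterpart of the position `P + m` lies before `P`. -/
lemma counterpart (hI : Inv y (κ + 1)) {i0 m n i s : ℕ}
    (hK : ∀ t < m, y (2 * 2 ^ κ + t) = y ((i0 + t) % 2 ^ κ))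
    (hi : i < 2 * 2 ^ κ) (hs : s ≤ m) (hsn : m < s + n)
    (heq : ∀ t < n, y (i + t) = y (2 * 2 ^ κ + s + t)) :
    i + (m - s) < 2 * 2 ^ κ := by
  have hP : 2 ^ (κ + 1) = 2 * 2 ^ κ := by ring
  have hh : 0 < 2 ^ κ := by positivity
  unfold Inv at hI
  rw [hP] at hI
  by_contra hcon
  rw [not_lt] at hcon
  have h1 := heq (2 * 2 ^ κ - 1 - i) (by omega)
  rw [show i + (2 * 2 ^ κ - 1 - i) = 2 * 2 ^ κ - 1 by omega,
    show 2 * 2 ^ κ + s + (2 * 2 ^ κ - 1 - i) = 2 * 2 ^ κ + (s + (2 * 2 ^ κ - 1 - i)) by omega,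
    hK _ (by omega)] at h1
  have h2 := Nat.mod_lt (i0 + (s + (2 * 2 ^ κ - 1 - i))) hh
  rw [hI _ _ (by omega) (by omega), show 2 * 2 ^ κ - 1 + 1 = 2 ^ (κ + 1) by omega, nu_pow] at h1
  have := nu_small (k := κ + 1)
    (p := (i0 + (s + (2 * 2 ^ κ - 1 - i))) % 2 ^ κ) (by omega)
  omega

/-- The letters before the counterpart. -/
lemma before (hI : Inv y (κ + 1)) {i0 m n i s : ℕ}
    (hK : ∀ t < m, y (2 * 2 ^ κ + t) = y ((i0 + t) % 2 ^ κ))
    (hi : i < 2 * 2 ^ κ) (hs : s ≤ m) (hsn : m < s + n)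
    (heq : ∀ t < n, y (i + t) = y (2 * 2 ^ κ + s + t))
    {g : ℕ} (hg : g = nu ((i0 + m) % 2 ^ κ + 1)) (hms : 2 ^ g ≤ m - s + 1) :
    (∀ τ, 1 ≤ τ → τ ≤ m - s →
      nu (i + (m - s) + 1 - τ) = nu ((i0 + m - τ) % 2 ^ κ + 1)) ∧
    g ≤ nu (i + (m - s) + 1) := by
  have hP : 2 ^ (κ + 1) = 2 * 2 ^ κ := by ring
  have hh : 0 < 2 ^ κ := by positivity
  have hc := counterpart hI hK hi hs hsn heq
  unfold Inv at hI
  rw [hP] at hI
  have hg1 : 0 < 2 ^ g := by positivity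
  have hgr : 2 ^ g ≤ (i0 + m) % 2 ^ κ + 1 := by
    rw [hg]; exact Nat.le_of_dvd (by omega) (pow_nu_dvd (by omega))
  have hb : ∀ τ, 1 ≤ τ → τ ≤ m - s →
      nu (i + (m - s) + 1 - τ) = nu ((i0 + m - τ) % 2 ^ κ + 1) := by
    intro τ h1 h2
    have h3 := heq (m - s - τ) (by omega)
    rw [show 2 * 2 ^ κ + s + (m - s - τ) = 2 * 2 ^ κ + (m - τ) by omega, hK _ (by omega)] at h3
    have h4 := Nat.mod_lt (i0 + (m - τ)) hh
    rw [hI _ _ (by omega) (by omega)] at h3
    rw [show i + (m - s) + 1 - τ = i + (m - s - τ) + 1 by omega, h3]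
    congr 2
    rw [show i0 + (m - τ) = i0 + m - τ by omega]
  refine ⟨hb, ?_⟩
  have hb1 : ∀ τ, 1 ≤ τ → τ < 2 ^ g →
      τ < i + (m - s) + 1 ∧ nu (i + (m - s) + 1 - τ) = nu τ := by
    intro τ h1 h2
    refine ⟨by omega, ?_⟩
    rw [hb τ h1 (by omega), mod_sub (by omega),
      show (i0 + m) % 2 ^ κ - τ + 1 = (i0 + m) % 2 ^ κ + 1 - τ by omega]
    refine nu_sub (w := g) ?_ (by omega) h2 (by omega)
    rw [hg]; exact pow_nu_dvd (by omega)
  have hd := dvd_of_before (by omega) hb1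
  rwa [pow_dvd_iff (by omega)] at hd

/-- The core comparison. -/
lemma core (hI : Inv y (κ + 1)) {i0 m n i s : ℕ}
    (hK : ∀ t < m, y (2 * 2 ^ κ + t) = y ((i0 + t) % 2 ^ κ))
    (hi : i < 2 * 2 ^ κ) (hs : s ≤ m) (hsn : m < s + n)
    (heq : ∀ t < n, y (i + t) = y (2 * 2 ^ κ + s + t))
    (hN : 2 ^ κ ≤ i0 + m)
    (hr : (i0 + m) % 2 ^ κ + 1 < 2 ^ κ)
    {g : ℕ} (hg : g = nu ((i0 + m) % 2 ^ κ + 1))
    (hms : 2 ^ g ≤ m - s) :
    y (2 * 2 ^ κ + m) = y ((i0 + m) % 2 ^ κ) := by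
  have hP : 2 ^ (κ + 1) = 2 * 2 ^ κ := by ring
  have hh : 0 < 2 ^ κ := by positivity
  have hc := counterpart hI hK hi hs hsn heq
  obtain ⟨hb, hd⟩ := before hI hK hi hs hsn heq hg (by omega)
  unfold Inv at hI
  rw [hP] at hI
  have hg1 : 0 < 2 ^ g := by positivity
  have hgr : 2 ^ g ≤ (i0 + m) % 2 ^ κ + 1 := by
    rw [hg]; exact Nat.le_of_dvd (by omega) (pow_nu_dvd (by omega))
  have hx : y (i + (m - s)) = y (2 * 2 ^ κ + m) := by
    rw [heq (m - s) (by omega)]; congr 1; omega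
  rcases hd.eq_or_lt with h | h
  · -- the expected letter
    rw [← hx, hI _ _ hc (by omega), ← h, hg]
  · exfalso
    have h1 := hb (2 ^ g) hg1 hms
    have h2 : nu (i + (m - s) + 1 - 2 ^ g) = g :=
      nu_sub_pow_eq ((pow_dvd_iff (by omega) _).mpr h) (by omega)
    rw [h2] at h1
    rcases hgr.lt_or_eq with h3 | h3
    · rw [mod_sub (by omega),
        show (i0 + m) % 2 ^ κ - 2 ^ g + 1 = (i0 + m) % 2 ^ κ + 1 - 2 ^ g by omega] at h1
      have := nu_sub_pow_gt hg.symm h3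
      omega
    · have h5 : (i0 + m - 2 ^ g) % 2 ^ κ = 2 ^ κ - 1 := by
        rw [h3]; exact mod_sub' hh hN
      rw [h5, show 2 ^ κ - 1 + 1 = 2 ^ κ by omega, nu_pow] at h1
      rw [h1] at h3
      omega

/-- A letter `w` after `Z_{w+1}` creates a square. -/
lemma sq_of {k : ℕ} (hsf : Squarefree y) (hI : Inv y k) {Q w : ℕ} (hQ : 2 * 2 ^ w ≤ Q + 1)
    (hb : ∀ τ, 1 ≤ τ → τ < 2 * 2 ^ w → ∃ p, p < 2 ^ k ∧ y (Q - τ) = y p ∧ nu (p + 1) = nu τ)
    (hq : ∃ q, q < 2 ^ k ∧ y Q = y q ∧ nu (q + 1) = w) : False := by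
  have hw : 0 < 2 ^ w := by positivity
  apply hsf
  refine ⟨Q + 1 - 2 * 2 ^ w, 2 ^ w, hw, ?_⟩
  intro t ht
  rcases Nat.lt_or_ge (t + 1) (2 ^ w) with h | h
  · obtain ⟨p1, a1, a2, a3⟩ := hb (2 ^ w + (2 ^ w - 1 - t)) (by omega) (by omega)
    obtain ⟨p2, b1, b2, b3⟩ := hb (2 ^ w - 1 - t) (by omega) (by omega)
    rw [show Q + 1 - 2 * 2 ^ w + t = Q - (2 ^ w + (2 ^ w - 1 - t)) by omega,
      show Q + 1 - 2 * 2 ^ w + 2 ^ w + t = Q - (2 ^ w - 1 - t) by omega, a2, b2, hI _ _ a1 b1,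
      a3, b3]
    exact nu_add (w := w) (dvd_refl _) (by omega) (by omega)
  · obtain ⟨p1, a1, a2, a3⟩ := hb (2 ^ w) (by omega) (by omega)
    obtain ⟨q, b1, b2, b3⟩ := hq
    rw [show Q + 1 - 2 * 2 ^ w + t = Q - 2 ^ w by omega,
      show Q + 1 - 2 * 2 ^ w + 2 ^ w + t = Q by omega, a2, b2, hI _ _ a1 b1, a3, b3, nu_pow]

lemma mod_small {N h q r : ℕ} (h1 : N = h * q + r) (h2 : r < h) : N % h = r := by
  rw [h1, Nat.mul_add_mod, Nat.mod_eq_of_lt h2]

/-- `y` has period `h` inside `Z`. -/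
lemma per (hI : Inv y (κ + 1)) {p : ℕ} (hp : p + 1 < 2 * 2 ^ κ) : y p = y (p % 2 ^ κ) := by
  have hP : 2 ^ (κ + 1) = 2 * 2 ^ κ := by ring
  unfold Inv at hI
  rw [hP] at hI
  rcases Nat.lt_or_ge p (2 ^ κ) with h | h
  · rw [Nat.mod_eq_of_lt h]
  · rw [mod_small (q := 1) (r := p - 2 ^ κ) (by omega) (by omega), hI _ _ (by omega) (by omega),
      show p + 1 = 2 ^ κ + (p - 2 ^ κ + 1) by omega]
    exact nu_add (w := κ) (dvd_refl _) (by omega) (by omega)

/-- First range, all cases except the two special ones. -/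
lemma rangeA (hsf : Squarefree y) (hI : Inv y (κ + 1)) {i0 m : ℕ} (hrep : Rep y (m + 1))
    (hK : ∀ t < m, y (2 * 2 ^ κ + t) = y ((i0 + t) % 2 ^ κ))
    (hm : 2 ^ κ ≤ m) (him : i0 + m + 1 < 2 * 2 ^ κ) :
    y (2 * 2 ^ κ + m) = y ((i0 + m) % 2 ^ κ) := by
  have hP : 2 ^ (κ + 1) = 2 * 2 ^ κ := by ring
  have hh : 0 < 2 ^ κ := by positivity
  obtain ⟨i, s, h1, h2, h3, heq⟩ := win hsf hI (by omega) (by omega) hrep
  have hmod : (i0 + m) % 2 ^ κ = i0 + m - 2 ^ κ := mod_small (q := 1) (by omega) (by omega)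
  obtain ⟨g, hg⟩ : ∃ g, g = nu ((i0 + m) % 2 ^ κ + 1) := ⟨_, rfl⟩
  have hgd : 2 ^ g ∣ (i0 + m) % 2 ^ κ + 1 := by rw [hg]; exact pow_nu_dvd (by omega)
  have hgle : 2 ^ g ≤ (i0 + m) % 2 ^ κ + 1 := Nat.le_of_dvd (by omega) hgd
  have hgκ : g < κ := by rw [hg]; exact nu_small (by omega)
  have hgh : 2 ^ g ∣ 2 ^ κ := pow_dvd_pow 2 hgκ.le
  have hge : 2 ^ g ≤ 2 ^ κ - ((i0 + m) % 2 ^ κ + 1) :=
    Nat.le_of_dvd (by omega) (Nat.dvd_sub hgh hgd)
  rcases Nat.lt_or_ge (m - s) (2 ^ g) with hlt | hge2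
  · -- special case
    have hi0 : i0 = 0 := by omega
    subst hi0
    have hms : m - s = 2 ^ g - 1 := by omega
    have hmv : m + 1 + 2 ^ g = 2 * 2 ^ κ := by omega
    have hg1 : 0 < 2 ^ g := by positivity
    have hc := counterpart hI hK h1 (by omega) (by omega) heq
    obtain ⟨-, hd⟩ := before hI hK h1 (by omega) (by omega) heq hg (by omega)
    unfold Inv at hI
    rw [hP] at hI
    have hx : y (i + (m - s)) = y (2 * 2 ^ κ + m) := by
      rw [heq (m - s) (by omega)]; congr 1; omega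
    rcases hd.eq_or_lt with h | h
    · rw [← hx, hI _ _ hc (by omega), ← h, hg]
    · exfalso
      obtain ⟨w, hw⟩ : ∃ w, w = nu (i + (m - s) + 1) := ⟨_, rfl⟩
      rw [← hw] at h
      have hwκ : w < κ + 1 := by rw [hw]; exact nu_small (by omega)
      have hwd : 2 ^ w ∣ i + (m - s) + 1 := by rw [hw]; exact pow_nu_dvd (by omega)
      have hwh : 2 ^ w ∣ 2 * 2 ^ κ := by
        rw [← hP]; exact pow_dvd_pow 2 (by omega)
      have hwle : 2 ^ w ≤ 2 ^ κ := Nat.pow_le_pow_right (by norm_num) (by omega)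
      have hgw : 2 ^ g < 2 ^ w := Nat.pow_lt_pow_right (by norm_num) h
      have hwge : 2 ^ w ≤ 2 * 2 ^ κ - (i + (m - s) + 1) :=
        Nat.le_of_dvd (by omega) (Nat.dvd_sub hwh hwd)
      -- codes of the positions before `P + m`
      have hcode : ∀ t, t < 2 ^ w - 2 ^ g → ∃ p, p < 2 * 2 ^ κ ∧
          y (2 * 2 ^ κ + (2 * 2 ^ κ - 2 ^ w - 1 + t)) = y p ∧
            nu (p + 1) = if t = 0 then w else nu t := by
        intro t ht
        have hkt := hK (2 * 2 ^ κ - 2 ^ w - 1 + t) (by omega)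
        rw [zero_add] at hkt
        rcases Nat.lt_or_ge (2 ^ w) (2 ^ κ) with hlt2 | hge3
        · have hmod2 : (2 * 2 ^ κ - 2 ^ w - 1 + t) % 2 ^ κ = 2 ^ κ - 2 ^ w - 1 + t :=
            mod_small (q := 1) (by omega) (by omega)
          rw [hmod2] at hkt
          refine ⟨_, by omega, hkt, ?_⟩
          have hwk : w < κ := (Nat.pow_lt_pow_iff_right (by norm_num)).mp hlt2
          have hdv : 2 ^ w ∣ 2 ^ κ - 2 ^ w := Nat.dvd_sub (pow_dvd_pow 2 hwk.le) (dvd_refl _)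
          split_ifs with h0
          · subst h0
            rw [show 2 ^ κ - 2 ^ w - 1 + 0 + 1 = 2 ^ κ - 2 ^ w by omega]
            rw [nu_sub (w := κ) (dvd_refl _) (by positivity) hlt2 hlt2, nu_pow]
          · rw [show 2 ^ κ - 2 ^ w - 1 + t + 1 = (2 ^ κ - 2 ^ w) + t by omega]
            exact nu_add hdv (by omega) (by omega)
        · have hwe : 2 ^ w = 2 ^ κ := le_antisymm hwle hge3
          have hwk : w = κ := Nat.pow_right_injective (le_refl 2) hwe
          subst hwk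
          split_ifs with h0
          · subst h0
            rw [mod_small (q := 0) (r := 2 ^ w - 1) (by omega) (by omega)] at hkt
            refine ⟨_, by omega, hkt, ?_⟩
            rw [show 2 ^ w - 1 + 1 = 2 ^ w by omega, nu_pow]
          · rw [mod_small (q := 1) (r := t - 1) (by omega) (by omega)] at hkt
            refine ⟨_, by omega, hkt, ?_⟩
            rw [show t - 1 + 1 = t by omega]
      apply hsf
      refine ⟨2 * 2 ^ κ + (2 * 2 ^ κ - 2 ^ w - 1), 2 ^ w - 2 ^ g, by omega, ?_⟩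
      intro t ht
      obtain ⟨p, p1, p2, p3⟩ := hcode t ht
      rw [add_assoc, p2]
      rw [show 2 * 2 ^ κ + (2 * 2 ^ κ - 2 ^ w - 1) + (2 ^ w - 2 ^ g) + t
        = 2 * 2 ^ κ + s + ((m - s) + t) by omega, ← heq _ (by omega),
        hI _ _ p1 (by omega), p3]
      split_ifs with h0
      · subst h0
        rw [add_zero, hw]
      · rw [show i + ((m - s) + t) + 1 = (i + (m - s) + 1) + t by omega]
        exact (nu_add hwd (by omega) (by omega)).symm
  · exact core hI hK h1 (by omega) (by omega) heq (by omega) (by omega) hg hge2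

end

section
variable {A : Type*} {y : ℕ → A} {κ : ℕ}

/-- First range, the position after a full copy of `Z_{k-1}`. -/
lemma rangeA' (hsf : Squarefree y) (hI : Inv y (κ + 1)) {i0 m : ℕ} (hrep : Rep y (m + 1))
    (hK : ∀ t < m, y (2 * 2 ^ κ + t) = y ((i0 + t) % 2 ^ κ))
    (hi0 : 1 ≤ i0) (hm : 2 ^ κ ≤ m) (him : i0 + m + 1 = 2 * 2 ^ κ) :
    y (2 * 2 ^ κ + m) = y ((i0 + m) % 2 ^ κ) := by
  have hP : 2 ^ (κ + 1) = 2 * 2 ^ κ := by ring
  have hh : 0 < 2 ^ κ := by positivity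
  obtain ⟨i, s, h1, h2, h3, heq⟩ := win hsf hI (by omega) (by omega) hrep
  have hc := counterpart hI hK h1 (by omega) (by omega) heq
  have hx : y (i + (m - s)) = y (2 * 2 ^ κ + m) := by
    rw [heq (m - s) (by omega)]; congr 1; omega
  have hmod : (i0 + m) % 2 ^ κ = 2 ^ κ - 1 := mod_small (q := 1) (by omega) (by omega)
  obtain ⟨w, hw⟩ : ∃ w, w = nu (i + (m - s) + 1) := ⟨_, rfl⟩
  have hwκ : w < κ + 1 := by rw [hw]; exact nu_small (by omega)
  rcases Nat.lt_or_ge w κ with h | h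
  · exfalso
    have hwle : 2 * 2 ^ w ≤ 2 ^ κ := by
      calc 2 * 2 ^ w = 2 ^ (w + 1) := by ring
        _ ≤ 2 ^ κ := Nat.pow_le_pow_right (by norm_num) h
    refine sq_of hsf hI (Q := 2 * 2 ^ κ + m) (w := w) (by omega) ?_ ?_
    · intro τ t1 t2
      refine ⟨2 ^ κ - 1 - τ, by omega, ?_, ?_⟩
      · rw [show 2 * 2 ^ κ + m - τ = 2 * 2 ^ κ + (m - τ) by omega, hK _ (by omega)]
        rw [mod_small (q := 1) (r := 2 ^ κ - 1 - τ) (by omega) (by omega)]
      · rw [show 2 ^ κ - 1 - τ + 1 = 2 ^ κ - τ by omega]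
        exact nu_sub (w := κ) (dvd_refl _) (by omega) (by omega) (by omega)
    · exact ⟨i + (m - s), by omega, hx.symm, hw.symm⟩
  · have hwe : w = κ := by omega
    unfold Inv at hI
    rw [hP] at hI
    rw [← hx, hmod, hI _ _ hc (by omega), ← hw, hwe, show 2 ^ κ - 1 + 1 = 2 ^ κ by omega, nu_pow]

/-- Second range. -/
lemma rangeB (hsf : Squarefree y) (hI : Inv y (κ + 1)) {i0 m : ℕ}
    (hrep : ∀ n, 1 ≤ n → Rep y n)
    (hK : ∀ t < m, y (2 * 2 ^ κ + t) = y ((i0 + t) % 2 ^ κ))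
    (hi0 : 1 ≤ i0) (hi0' : i0 < 2 ^ κ) (hm : m < 2 * 2 ^ κ) (him : 2 * 2 ^ κ ≤ i0 + m) :
    y (2 * 2 ^ κ + m) = y ((i0 + m) % 2 ^ κ) := by
  have hP : 2 ^ (κ + 1) = 2 * 2 ^ κ := by ring
  have hh : 0 < 2 ^ κ := by positivity
  have hmod : (i0 + m) % 2 ^ κ = i0 + m - 2 * 2 ^ κ := mod_small (q := 2) (by omega) (by omega)
  obtain ⟨n, hn, hn'⟩ : ∃ n, (2 * 2 ^ κ - i0 ≤ n ∧ m + i0 + 1 - 2 ^ κ ≤ n) ∧
      (n = 2 * 2 ^ κ - i0 ∨ n = m + i0 + 1 - 2 ^ κ) := by
    rcases Nat.lt_or_ge (2 * 2 ^ κ - i0) (m + i0 + 1 - 2 ^ κ) with h | h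
    · exact ⟨m + i0 + 1 - 2 ^ κ, ⟨by omega, by omega⟩, Or.inr rfl⟩
    · exact ⟨2 * 2 ^ κ - i0, ⟨by omega, by omega⟩, Or.inl rfl⟩
  obtain ⟨i, s, h1, h2, h3, heq⟩ := win (n := n) hsf hI (by omega) (by omega) (hrep n (by omega))
  have hsn : m < s + n := by
    by_contra hcon
    rw [not_lt] at hcon
    have hst : s < 2 ^ κ - i0 := by omega
    -- the window after `P` contains no `d`
    have hin : i + n < 2 * 2 ^ κ := by
      by_contra hc2
      rw [not_lt] at hc2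
      have h4 := heq (2 * 2 ^ κ - 1 - i) (by omega)
      rw [show i + (2 * 2 ^ κ - 1 - i) = 2 * 2 ^ κ - 1 by omega,
        show 2 * 2 ^ κ + s + (2 * 2 ^ κ - 1 - i) = 2 * 2 ^ κ + (s + (2 * 2 ^ κ - 1 - i)) by omega,
        hK _ (by omega)] at h4
      have h5 := Nat.mod_lt (i0 + (s + (2 * 2 ^ κ - 1 - i))) hh
      unfold Inv at hI
      rw [hP] at hI
      rw [hI _ _ (by omega) (by omega), show 2 * 2 ^ κ - 1 + 1 = 2 ^ (κ + 1) by omega,
        nu_pow] at h4
      have := nu_small (k := κ + 1)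
        (p := (i0 + (s + (2 * 2 ^ κ - 1 - i))) % 2 ^ κ) (by omega)
      omega
    -- it contains the letter `k - 1` twice
    have two : ∀ t, t < n → (i0 + (s + t)) % 2 ^ κ = 2 ^ κ - 1 → i + t = 2 ^ κ - 1 := by
      intro t ht hmt
      have h4 := heq t ht
      rw [add_assoc, hK _ (by omega), hmt] at h4
      unfold Inv at hI
      rw [hP] at hI
      rw [hI _ _ (by omega) (by omega), show 2 ^ κ - 1 + 1 = 2 ^ κ by omega, nu_pow] at h4
      by_contra hne
      rcases Nat.lt_or_ge (i + t) (2 ^ κ - 1) with h5 | h5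
      · have := nu_small (k := κ) (p := i + t) (by omega)
        omega
      · have h6 : nu (i + t + 1) = nu (i + t + 1 - 2 ^ κ) := by
          conv_lhs => rw [show i + t + 1 = 2 ^ κ + (i + t + 1 - 2 ^ κ) by omega]
          exact nu_add (w := κ) (dvd_refl _) (by omega) (by omega)
        have h7 := nu_lt (w := κ) (n := i + t + 1 - 2 ^ κ) (by omega) (by omega)
        omega
    have t1 := two (2 ^ κ - 1 - i0 - s) (by omega)
      (mod_small (q := 0) (by omega) (by omega))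
    have t2 := two (2 * 2 ^ κ - 1 - i0 - s) (by omega)
      (mod_small (q := 1) (by omega) (by omega))
    omega
  obtain ⟨g, hg⟩ : ∃ g, g = nu ((i0 + m) % 2 ^ κ + 1) := ⟨_, rfl⟩
  have hgd : 2 ^ g ∣ (i0 + m) % 2 ^ κ + 1 := by rw [hg]; exact pow_nu_dvd (by omega)
  have hgle : 2 ^ g ≤ (i0 + m) % 2 ^ κ + 1 := Nat.le_of_dvd (by omega) hgd
  have hgκ : g < κ := by rw [hg]; exact nu_small (by omega)
  have hgh : 2 ^ g ∣ 2 ^ κ := pow_dvd_pow 2 hgκ.le
  have hge : 2 ^ g ≤ 2 ^ κ - ((i0 + m) % 2 ^ κ + 1) :=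
    Nat.le_of_dvd (by omega) (Nat.dvd_sub hgh hgd)
  refine core hI hK h1 (by omega) hsn heq (by omega) (by omega) hg ?_
  rcases hn' with h | h <;> omega

/-- The induction step. -/
theorem step (hsf : Squarefree y) (hrep : ∀ n, 1 ≤ n → Rep y n) (hI : Inv y (κ + 1)) :
    Inv y (κ + 2) := by
  have hP : 2 ^ (κ + 1) = 2 * 2 ^ κ := by ring
  have hP2 : 2 ^ (κ + 2) = 2 * (2 * 2 ^ κ) := by ring
  have hh : 0 < 2 ^ κ := by positivity
  have hI' := hI
  unfold Inv at hI'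
  rw [hP] at hI'
  obtain ⟨i0, s, h1, h2, h3, heq⟩ := win (n := 2 ^ κ) hsf hI (by omega) (by omega)
    (hrep _ (by omega))
  have hs : s = 0 := by omega
  subst hs
  have hi0 : i0 < 2 ^ κ := by omega
  have main : ∀ m, m < 2 * 2 ^ κ → (i0 = 0 → m + 1 < 2 * 2 ^ κ) →
      y (2 * 2 ^ κ + m) = y ((i0 + m) % 2 ^ κ) := by
    intro m
    induction m using Nat.strong_induction_on with
    | _ m ih =>
      intro hm hm0
      rcases Nat.lt_or_ge m (2 ^ κ) with hlt | hge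
      · have := heq m hlt
        rw [add_zero] at this
        rw [← this]
        exact per hI (by omega)
      · have hK : ∀ t < m, y (2 * 2 ^ κ + t) = y ((i0 + t) % 2 ^ κ) := by
          intro t ht
          exact ih t ht (by omega) (fun h => by have := hm0 h; omega)
        rcases Nat.lt_or_ge (i0 + m + 1) (2 * 2 ^ κ) with h4 | h4
        · exact rangeA hsf hI (hrep _ (by omega)) hK hge h4
        · rcases h4.eq_or_lt with h5 | h5
          · refine rangeA' hsf hI (hrep _ (by omega)) hK ?_ hge h5.symm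
            by_contra hc
            have := hm0 (by omega)
            omega
          · refine rangeB hsf hI hrep hK ?_ hi0 hm (by omega)
            omega
  have hi00 : i0 = 0 := by
    by_contra hne
    apply hsf
    refine ⟨2 * 2 ^ κ, 2 ^ κ, hh, ?_⟩
    intro t ht
    rw [main t (by omega) (fun h => absurd h hne), add_assoc,
      main (2 ^ κ + t) (by omega) (fun h => absurd h hne)]
    congr 1
    rw [show i0 + (2 ^ κ + t) = i0 + t + 2 ^ κ by ring, Nat.add_mod_right]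
  subst hi00
  -- `y` begins with `Z d Z`
  have hcopy : ∀ t, t + 1 < 2 * 2 ^ κ → y (2 * 2 ^ κ + t) = y t := by
    intro t ht
    rw [main t (by omega) (fun _ => ht), zero_add]
    exact (per hI ht).symm
  -- reduction of a position below `2 P - 1`
  have hred : ∀ p, p + 1 < 2 * (2 * 2 ^ κ) → ∃ q, q < 2 * 2 ^ κ ∧ y p = y q ∧
      nu (p + 1) = nu (q + 1) := by
    intro p hp
    rcases Nat.lt_or_ge p (2 * 2 ^ κ) with h | h
    · exact ⟨p, h, rfl, rfl⟩
    · refine ⟨p - 2 * 2 ^ κ, by omega, ?_, ?_⟩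
      · have := hcopy (p - 2 * 2 ^ κ) (by omega)
        rw [← this]; congr 1; omega
      · rw [show p + 1 = 2 ^ (κ + 1) + (p - 2 * 2 ^ κ + 1) by omega]
        exact nu_add (w := κ + 1) (dvd_refl _) (by omega) (by omega)
  have hnew : ∀ q, q + 1 < 2 * (2 * 2 ^ κ) → y (2 * (2 * 2 ^ κ) - 1) ≠ y q := by
    intro q hq heq'
    obtain ⟨q', a1, a2, -⟩ := hred q hq
    obtain ⟨w, hw⟩ : ∃ w, w = nu (q' + 1) := ⟨_, rfl⟩
    have hwle : w ≤ κ + 1 := by
      rcases Nat.lt_or_ge (q' + 1) (2 * 2 ^ κ) with h | h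
      · have := nu_small (k := κ + 1) (p := q') (by omega)
        omega
      · have : q' + 1 = 2 ^ (κ + 1) := by omega
        rw [hw, this, nu_pow]
    have hwp : 2 ^ w ≤ 2 ^ (κ + 1) := Nat.pow_le_pow_right (by norm_num) hwle
    refine sq_of hsf hI (Q := 2 * (2 * 2 ^ κ) - 1) (w := w) (by omega) ?_ ?_
    · intro τ t1 t2
      obtain ⟨p, b1, b2, b3⟩ := hred (2 * (2 * 2 ^ κ) - 1 - τ) (by omega)
      refine ⟨p, by omega, b2, ?_⟩
      rw [← b3, show 2 * (2 * 2 ^ κ) - 1 - τ + 1 = 2 ^ (κ + 2) - τ by omega]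
      exact nu_sub (w := κ + 2) (dvd_refl _) (by omega) (by omega) (by omega)
    · exact ⟨q', by omega, by rw [heq', a2], hw.symm⟩
  have htop : nu (2 * (2 * 2 ^ κ)) = κ + 2 := by rw [← hP2, nu_pow]
  intro p q hp hq
  rw [hP2] at hp hq
  rcases Nat.lt_or_ge (p + 1) (2 * (2 * 2 ^ κ)) with h4 | h4 <;>
  rcases Nat.lt_or_ge (q + 1) (2 * (2 * 2 ^ κ)) with h5 | h5
  · obtain ⟨p', a1, a2, a3⟩ := hred p h4
    obtain ⟨q', b1, b2, b3⟩ := hred q h5
    rw [a2, b2, a3, b3]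
    exact hI' _ _ a1 b1
  · have hqe : q = 2 * (2 * 2 ^ κ) - 1 := by omega
    constructor
    · intro h
      rw [hqe] at h
      exact absurd h.symm (hnew p h4)
    · intro h
      exfalso
      rw [hqe, show 2 * (2 * 2 ^ κ) - 1 + 1 = 2 * (2 * 2 ^ κ) by omega, htop] at h
      have := nu_small (k := κ + 2) (p := p) (by omega)
      omega
  · have hpe : p = 2 * (2 * 2 ^ κ) - 1 := by omega
    constructor
    · intro h
      rw [hpe] at h
      exact absurd h (hnew q h5)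
    · intro h
      exfalso
      rw [hpe, show 2 * (2 * 2 ^ κ) - 1 + 1 = 2 * (2 * 2 ^ κ) by omega, htop] at h
      have := nu_small (k := κ + 2) (p := q) (by omega)
      omega
  · have hpe : p = q := by omega
    rw [hpe]
    simp

theorem inv_all (hsf : Squarefree y) (hrep : ∀ n, 1 ≤ n → Rep y n) (k : ℕ) :
    Inv y (k + 1) := by
  induction k with
  | zero =>
    intro p q hp hq
    have h01 : y 0 ≠ y 1 := by
      intro h
      apply hsf
      refine ⟨0, 1, by omega, ?_⟩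
      intro t ht
      have : t = 0 := by omega
      subst this
      simpa using h
    have n1 : nu 1 = 0 := by simpa using nu_pow 0
    have n2 : nu 2 = 1 := by simpa using nu_pow 1
    have hp' : p = 0 ∨ p = 1 := by norm_num at hp; omega
    have hq' : q = 0 ∨ q = 1 := by norm_num at hq; omega
    rcases hp' with rfl | rfl <;> rcases hq' with rfl | rfl
    · simp
    · simp only [zero_add, Nat.reduceAdd, n1, n2]
      constructor
      · intro h; exact absurd h h01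
      · intro h; omega
    · simp only [zero_add, Nat.reduceAdd, n1, n2]
      constructor
      · intro h; exact absurd h.symm h01
      · intro h; omega
    · simp
  | succ k ih => exact step hsf hrep ih

end

/-! ### The ruler sequence and the statement -/

lemma Z_length (k : ℕ) : (Z k).length + 1 = 2 ^ k := by
  induction k with
  | zero => rfl
  | succ k ih =>
    rw [Z, List.length_append, List.length_cons, pow_succ]
    omega

lemma Z_get (k p : ℕ) (hp : p + 1 < 2 ^ k) : (Z k).getD p 0 = nu (p + 1) := by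
  induction k generalizing p with
  | zero => simp at hp
  | succ k ih =>
    have hl := Z_length k
    rw [Z]
    rw [pow_succ] at hp
    rcases Nat.lt_or_ge p (Z k).length with h | h
    · rw [List.getD_append _ _ _ _ h]
      exact ih p (by omega)
    · rw [List.getD_append_right _ _ _ _ h]
      rcases h.eq_or_lt with h1 | h1
      · rw [h1, Nat.sub_self, List.getD_cons_zero, ← h1, hl, nu_pow]
      · obtain ⟨q, hq⟩ : ∃ q, p - (Z k).length = q + 1 := ⟨p - (Z k).length - 1, by omega⟩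
        rw [hq, List.getD_cons_succ, ih q (by omega)]
        rw [show p + 1 = 2 ^ k + (q + 1) by omega]
        exact (nu_add (w := k) (dvd_refl _) (by omega) (by omega)).symm

lemma ruler_eq (p : ℕ) : ruler p = nu (p + 1) := by
  unfold ruler
  exact Z_get (p + 1) p Nat.lt_two_pow_self

lemma rep_of_nsc {A : Type*} (y : ℕ → A) (n : ℕ) (h : nsc y n ≤ ((2 * n : ℕ) : ℕ∞)) : Rep y n := by
  by_contra hc
  have hmem : (2 * n + 1) ∈ {m : ℕ | ∀ i j, i < j → j < m → ¬ ∀ t < n, y (i + t) = y (j + t)} := by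
    intro i j hij hj heq
    exact hc ⟨i, j, hij, by omega, heq⟩
  have h1 : ((2 * n + 1 : ℕ) : ℕ∞) ≤ nsc y n :=
    le_iSup₂_of_le (f := fun (m : ℕ)
      (_ : m ∈ {m : ℕ | ∀ i j, i < j → j < m → ¬ ∀ t < n, y (i + t) = y (j + t)}) => (m : ℕ∞))
      (2 * n + 1) hmem le_rfl
  have h2 := h1.trans h
  have h3 : 2 * n + 1 ≤ 2 * n := by exact_mod_cast h2
  omega

/-- The ruler sequence has every Zimin word as a prefix. -/
theorem ruler_prefix (k p : ℕ) (hp : p < (Z k).length) : (Z k).getD p 0 = ruler p := by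
  rw [ruler_eq]
  apply Z_get
  have := Z_length k
  omega

/-- A squarefree infinite word `y` (over any alphabet) with `nsc_y(n) ≤ 2n` for all `n ≥ 1` is the
image of the ruler sequence under an injective renaming `σ` of the letters; if every letter of the
alphabet occurs in `y` then `σ` is a bijection. -/
theorem result {A : Type*} (y : ℕ → A) (hsf : Squarefree y)
    (hn : ∀ n : ℕ, 1 ≤ n → nsc y n ≤ ((2 * n : ℕ) : ℕ∞)) :
    ∃ σ : ℕ → A, Function.Injective σ ∧ (∀ p, y p = σ (ruler p)) ∧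
      (Function.Surjective y → Function.Bijective σ) := by
  have hI := inv_all hsf (fun n h => rep_of_nsc y n (hn n h))
  have key : ∀ p q, y p = y q ↔ nu (p + 1) = nu (q + 1) := by
    intro p q
    have h1 : p + q < 2 ^ (p + q + 1) := by
      have := Nat.lt_two_pow_self (n := p + q + 1)
      omega
    exact hI (p + q) p q (by omega) (by omega)
  have hσ : ∀ p, y p = y (2 ^ (ruler p) - 1) := by
    intro p
    rw [key, ruler_eq, show 2 ^ nu (p + 1) - 1 + 1 = 2 ^ nu (p + 1) by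
      have : 0 < 2 ^ nu (p + 1) := by positivity
      omega, nu_pow]
  refine ⟨fun w => y (2 ^ w - 1), ?_, hσ, ?_⟩
  · intro v w h
    have h' : y (2 ^ v - 1) = y (2 ^ w - 1) := h
    have hv : 0 < 2 ^ v := by positivity
    have hw : 0 < 2 ^ w := by positivity
    rw [key, show 2 ^ v - 1 + 1 = 2 ^ v by omega, show 2 ^ w - 1 + 1 = 2 ^ w by omega, nu_pow,
      nu_pow] at h'
    exact h'
  · intro hsurj
    refine ⟨?_, ?_⟩
    · intro v w h
      have h' : y (2 ^ v - 1) = y (2 ^ w - 1) := h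
      have hv : 0 < 2 ^ v := by positivity
      have hw : 0 < 2 ^ w := by positivity
      rw [key, show 2 ^ v - 1 + 1 = 2 ^ v by omega, show 2 ^ w - 1 + 1 = 2 ^ w by omega, nu_pow,
        nu_pow] at h'
      exact h'
    · intro a
      obtain ⟨p, rfl⟩ := hsurj a
      exact ⟨ruler p, (hσ p).symm⟩

end Pool.Agent.Results.MP_2232d5_co.Ruler
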